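import Pool.Agent.Helper8_HK.Stmt1

/-! Squad HK, module CMF: the coefficient `c_m` (helper46). -/

set_option autoImplicit false
set_option linter.unusedSectionVars false

namespace Pool.Agent.HK.H46C

open Polynomial

variable {F : Type} [Field F]

theorem inO_mono {k l : ℤ} {x : Kinf F} (h : InO k x) (hl : l ≤ k) : InO l x :=
  fun i hi => h i (lt_of_lt_of_le hi hl)

theorem inO_add {k : ℤ} {x y : Kinf F} (hx : InO k x) (hy : InO k y) : InO k (x + y) := by
  intro i hi
  rw [HahnSeries.coeff_add, hx i hi, hy i hi, add_zero]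

theorem inO_neg {k : ℤ} {x : Kinf F} (hx : InO k x) : InO k (-x) := by
  intro i hi
  rw [HahnSeries.coeff_neg, hx i hi, neg_zero]

theorem inO_sub {k : ℤ} {x y : Kinf F} (hx : InO k x) (hy : InO k y) : InO k (x - y) := by
  intro i hi
  rw [HahnSeries.coeff_sub, hx i hi, hy i hi, sub_zero]

theorem inO_zero (k : ℤ) : InO k (0 : Kinf F) := by
  intro i _
  rw [HahnSeries.coeff_zero]

theorem inO_sum {ι : Type} {k : ℤ} (s : Finset ι) (f : ι → Kinf F) (h : ∀ i ∈ s, InO k (f i)) :
    InO k (∑ i ∈ s, f i) := by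
  classical
  induction s using Finset.induction_on with
  | empty => exact inO_zero k
  | insert a s ha ih =>
    rw [Finset.sum_insert ha]
    exact inO_add (h a (Finset.mem_insert_self a s))
      (ih fun i hi => h i (Finset.mem_insert_of_mem hi))

/-- digits -/
noncomputable def ds (k : ℤ) {N : ℕ} (s : Fin N → F) : Kinf F :=
  ∑ j : Fin N, cst F (s j) * (unif F) ^ (k + (j : ℕ))

theorem coeff_pow (hL : LAUStmt) (k i : ℤ) :
    HahnSeries.coeff ((unif F) ^ k : Kinf F) i = if i = k then 1 else 0 := by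
  obtain ⟨-, -, -, -, -, -, h7, -⟩ := hL F
  have := h7 k i 1
  rw [mul_one] at this
  rw [this, HahnSeries.coeff_one]
  by_cases h : i = k
  · rw [if_pos h, if_pos (by omega)]
  · rw [if_neg h, if_neg (by omega)]

theorem coeff_cp (hL : LAUStmt) (c : F) (k i : ℤ) :
    HahnSeries.coeff (cst F c * (unif F) ^ k : Kinf F) i = if i = k then c else 0 := by
  rw [(hL F).2.2.1 c _ i, coeff_pow hL]
  by_cases h : i = k
  · rw [if_pos h, if_pos h, mul_one]
  · rw [if_neg h, if_neg h, mul_zero]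

theorem inO_cp (hL : LAUStmt) (c : F) (k : ℤ) : InO k (cst F c * (unif F) ^ k : Kinf F) := by
  intro i hi
  rw [coeff_cp hL, if_neg (by omega)]

theorem inO_pow (hL : LAUStmt) (k : ℤ) : InO k ((unif F) ^ k : Kinf F) := by
  intro i hi
  rw [coeff_pow hL, if_neg (by omega)]

theorem inO_mul (hL : LAUStmt) {k l : ℤ} {x y : Kinf F} (hx : InO k x) (hy : InO l y) :
    InO (k + l) (x * y) := ((hL F).2.2.2.2.2.2.2.1 k l x y hx hy).1

theorem coeff_ds (hL : LAUStmt) (k : ℤ) {N : ℕ} (s : Fin N → F) (i : ℤ) :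
    HahnSeries.coeff (ds k s) i = ∑ j : Fin N, if i = k + (j : ℕ) then s j else 0 := by
  unfold ds
  rw [HahnSeries.coeff_sum]
  exact Finset.sum_congr rfl fun j _ => coeff_cp hL _ _ _

theorem coeff_ds_in (hL : LAUStmt) (k : ℤ) {N : ℕ} (s : Fin N → F) (j : Fin N) :
    HahnSeries.coeff (ds k s) (k + (j : ℕ)) = s j := by
  rw [coeff_ds hL, Finset.sum_eq_single j]
  · rw [if_pos rfl]
  · intro i _ hi
    rw [if_neg]
    intro hc
    exact hi (Fin.ext (by omega))
  · intro h
    exact absurd (Finset.mem_univ j) h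

theorem inO_ds (hL : LAUStmt) (k : ℤ) {N : ℕ} (s : Fin N → F) : InO k (ds k s) := by
  refine inO_sum _ _ fun j _ => ?_
  exact inO_mono (inO_cp hL _ _) (by omega)

/-- digits of `x` -/
noncomputable def dg (k : ℤ) (N : ℕ) (x : Kinf F) : Fin N → F :=
  fun j => HahnSeries.coeff x (k + (j : ℕ))

theorem dg_spec (hL : LAUStmt) (k : ℤ) (N : ℕ) (x : Kinf F) (hx : InO k x) :
    InO (k + N) (x - ds k (dg k N x)) := by
  intro i hi
  rw [HahnSeries.coeff_sub]
  by_cases h : i < k
  · rw [hx i h, inO_ds hL k _ i h, sub_zero]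
  · have h2 : i = k + (((⟨(i - k).toNat, by omega⟩ : Fin N) : ℕ) : ℤ) := by
      show i = k + ((i - k).toNat : ℤ)
      omega
    rw [h2, coeff_ds_in hL, sub_eq_zero]
    rfl

theorem dg_eq {k : ℤ} {N : ℕ} {x y : Kinf F} (h : InO (k + N) (x - y)) :
    dg k N x = dg k N y := by
  funext j
  have := h (k + (j : ℕ)) (by have := j.isLt; omega)
  rw [HahnSeries.coeff_sub, sub_eq_zero] at this
  exact this

theorem dg_inO {k : ℤ} {N : ℕ} {x y : Kinf F} (hx : InO k x) (hy : InO k y)
    (h : dg k N x = dg k N y) : InO (k + N) (x - y) := by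
  intro i hi
  rw [HahnSeries.coeff_sub]
  by_cases h1 : i < k
  · rw [hx i h1, hy i h1, sub_zero]
  · have h2 : i = k + (((⟨(i - k).toNat, by omega⟩ : Fin N) : ℕ) : ℤ) := by
      show i = k + ((i - k).toNat : ℤ)
      omega
    rw [h2, sub_eq_zero]
    exact congrFun h _

theorem dg_ds (hL : LAUStmt) (k : ℤ) {N : ℕ} (s : Fin N → F) : dg k N (ds k s) = s := by
  funext j
  exact coeff_ds_in hL k s j

/-! ### polynomials -/

/-- polynomial with given coefficients -/
noncomputable def pol {N : ℕ} (c : Fin N → F) : F[X] := ∑ j : Fin N, C (c j) * X ^ (j : ℕ)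

theorem pol_deg {N : ℕ} (c : Fin N → F) : (pol c).degree < N := by
  unfold pol
  rw [degree_lt_iff_coeff_zero]
  intro i hi
  rw [finsetSum_coeff]
  refine Finset.sum_eq_zero fun j _ => ?_
  rw [coeff_C_mul_X_pow, if_neg (by have := j.isLt; omega)]

theorem pol_coeff {N : ℕ} (c : Fin N → F) (j : Fin N) : (pol c).coeff (j : ℕ) = c j := by
  unfold pol
  rw [finsetSum_coeff, Finset.sum_eq_single j]
  · rw [coeff_C_mul_X_pow, if_pos rfl]
  · intro i _ hi
    rw [coeff_C_mul_X_pow, if_neg]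
    intro hc
    exact hi (Fin.ext hc.symm)
  · intro h
    exact absurd (Finset.mem_univ j) h

theorem pol_inj {N : ℕ} {c c' : Fin N → F} (h : pol c = pol c') : c = c' := by
  funext j
  rw [← pol_coeff c j, h, pol_coeff]

theorem pol_surj {N : ℕ} {b : F[X]} (h : b.degree < N) :
    pol (fun j : Fin N => b.coeff (j : ℕ)) = b := by
  ext i
  by_cases hi : i < N
  · exact pol_coeff _ ⟨i, hi⟩
  · rw [degree_lt_iff_coeff_zero] at h
    rw [h i (by omega)]
    have := pol_deg (fun j : Fin N => b.coeff (j : ℕ))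
    rw [degree_lt_iff_coeff_zero] at this
    exact this i (by omega)

theorem inO_emb (hL : LAUStmt) {b : F[X]} {N : ℕ} (h : b.degree < N) :
    InO (1 - (N : ℤ)) (emb F b) := by
  intro i hi
  have e : i = -(((-i).toNat : ℕ) : ℤ) := by omega
  rw [e, (hL F).1 b]
  rw [degree_lt_iff_coeff_zero] at h
  exact h _ (by omega)

theorem emb_pol_inj (hL : LAUStmt) {N : ℕ} {c c' : Fin N → F}
    (h : InO 1 (emb F (pol c) - emb F (pol c'))) : c = c' := by
  rw [← map_sub] at h
  have h12 := (hL F).2.2.2.2.2.2.2.2.2.2.2.1 _ h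
  exact pol_inj (sub_eq_zero.mp h12)

theorem inO_emb_monic (hL : LAUStmt) {a : F[X]} (ha : a.Monic) :
    InO (-(a.natDegree : ℤ)) (emb F a) := by
  have h : a.degree < ((a.natDegree + 1 : ℕ) : WithBot ℕ) := by
    rw [degree_eq_natDegree ha.ne_zero]
    exact_mod_cast Nat.lt_succ_self _
  have := inO_emb hL h
  refine inO_mono this ?_
  push_cast
  omega

theorem emb_ne (hL : LAUStmt) {a : F[X]} (ha : a.Monic) : emb F a ≠ 0 := by
  intro h
  have : a = 0 := (hL F).2.2.2.2.2.2.2.2.2.2.2.1 a (by rw [h]; exact inO_zero 1)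
  exact ha.ne_zero this

theorem emb_form (hL : LAUStmt) {a : F[X]} (ha : a.Monic) :
    ∃ u : Kinf F, emb F a = (unif F) ^ (-(a.natDegree : ℤ)) * u ∧ InO 0 u ∧
      HahnSeries.coeff u 0 = 1 :=
  (hL F).2.2.2.2.2.2.2.2.2.2.2.2 a ha

theorem inO_emb_inv (hL : LAUStmt) {a : F[X]} (ha : a.Monic) :
    InO (a.natDegree : ℤ) (emb F a)⁻¹ := by
  obtain ⟨u, hu, h0, h1⟩ := emb_form hL ha
  have h2 := ((hL F).2.2.2.2.2.2.2.2.2.1 u h0 (by rw [h1]; exact one_ne_zero)).1
  rw [hu, mul_inv, ← zpow_neg, neg_neg]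
  have := inO_mul hL (inO_pow hL (a.natDegree : ℤ)) h2
  rwa [add_zero] at this

/-! ### Sums of values -/

variable [Fintype F]

theorem val_congr {R : Type} [AddCommGroup R] (hV : VALStmt) {φ : GLK F → R} (hφ : IsHarm φ)
    {k : ℤ} {u v : Kinf F} (h : InO k (u - v)) : val φ k u = val φ k v := by
  have := (hV F R φ hφ).1 1 k u v h
  rw [one_mul, one_mul] at this
  exact this

theorem val_low {R : Type} [AddCommGroup R] (hV : VALStmt) {φ : GLK F → R} (hφ : IsHarm φ)
    {n : F[X]} (hI : Invt n φ) (h0 : val φ 1 0 = 0) {k : ℤ} (hk : k ≤ 1) (u : Kinf F) :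
    val φ k u = 0 := by
  obtain ⟨-, -, h3, h4⟩ := (hV F R φ hφ).2.2.2.2.2.2 n hI
  rw [h3 k u hk]
  have := h4 (1 - k).toNat
  rw [show (1 : ℤ) - ((1 - k).toNat : ℤ) = k by omega] at this
  rw [this, h0, smul_zero]

theorem lemB {R : Type} [AddCommGroup R] (hL : LAUStmt) (hV : VALStmt) {φ : GLK F → R}
    (hφ : IsHarm φ) (h0 : val φ 1 0 = 0) (N : ℕ) : ∀ k : ℤ, 1 ≤ k → k ≤ N + 1 →
      ∑ s : Fin N → F, val φ k (ds 1 s) = 0 := by
  have hfull : ∀ N : ℕ, ∑ s : Fin N → F, val φ (1 + N) (ds 1 s) = 0 := by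
    intro N
    have := (hV F R φ hφ).2.2.2.1 1 1 N 0
    simp only [one_mul, zero_add] at this
    have h2 : φ (mat (unif F ^ (1 : ℤ)) 0 0 1) = 0 := h0
    rw [h2] at this
    exact this
  induction N with
  | zero =>
    intro k h1 h2
    have : k = 1 + ((0 : ℕ) : ℤ) := by push_cast at h2 ⊢; omega
    rw [this]
    exact hfull 0
  | succ N ih =>
    intro k h1 h2
    by_cases hk : k = 1 + ((N + 1 : ℕ) : ℤ)
    · rw [hk]
      exact hfull (N + 1)
    · have hk' : k ≤ N + 1 := by push_cast at h2 hk; omega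
      rw [← (Fin.snocEquiv (fun _ : Fin (N + 1) => F)).sum_comp, Fintype.sum_prod_type]
      refine Finset.sum_eq_zero fun x _ => ?_
      rw [← ih k h1 hk']
      refine Finset.sum_congr rfl fun s _ => ?_
      refine val_congr hV hφ ?_
      have e : ds 1 ((Fin.snocEquiv (fun _ : Fin (N + 1) => F)) (x, s))
          = ds 1 s + cst F x * (unif F) ^ (1 + (N : ℤ)) := by
        unfold ds
        rw [Fin.sum_univ_castSucc]
        simp [Fin.snocEquiv]
      rw [e, add_sub_cancel_left]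
      exact inO_mono (inO_cp hL _ _) (by omega)

theorem lemA {R : Type} [AddCommGroup R] (hL : LAUStmt) (hV : VALStmt) {φ : GLK F → R}
    (hφ : IsHarm φ) {n : F[X]} (hI : Invt n φ) (h0 : val φ 1 0 = 0) {a d : F[X]} (ha : a.Monic)
    (hd : d.Monic) (ha1 : 1 ≤ a.natDegree) :
    ∑ c : Fin d.natDegree → F, val φ (2 + (d.natDegree : ℤ) - (a.natDegree : ℤ))
      ((emb F a * unif F + emb F (pol c)) / emb F d) = 0 := by
  by_cases hk : 2 + (d.natDegree : ℤ) - (a.natDegree : ℤ) ≤ 1
  · exact Finset.sum_eq_zero fun c _ => val_low hV hφ hI h0 hk _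
  · have hx : ∀ c : Fin d.natDegree → F,
        InO 1 ((emb F a * unif F + emb F (pol c)) / emb F d) := by
      intro c
      rw [add_div]
      refine inO_add ?_ ?_
      · rw [div_eq_mul_inv]
        have hu : InO 1 (unif F) := by
          have := inO_pow (F := F) hL 1
          rwa [zpow_one] at this
        refine inO_mono (inO_mul hL (inO_mul hL (inO_emb_monic hL ha) hu) (inO_emb_inv hL hd)) ?_
        omega
      · rw [div_eq_mul_inv]
        refine inO_mono (inO_mul hL (inO_emb hL (pol_deg c)) (inO_emb_inv hL hd)) ?_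
        omega
    have hinj : Function.Injective (fun c : Fin d.natDegree → F =>
        dg 1 d.natDegree ((emb F a * unif F + emb F (pol c)) / emb F d)) := by
      intro c c' h
      have h1 := dg_inO (hx c) (hx c') h
      rw [← sub_div, add_sub_add_left_eq_sub, div_eq_mul_inv] at h1
      have h2 := inO_mul hL h1 (inO_emb_monic hL hd)
      rw [mul_assoc, inv_mul_cancel₀ (emb_ne hL hd), mul_one] at h2
      exact emb_pol_inj hL (inO_mono h2 (by omega))
    have hbij := Finite.injective_iff_bijective.mp hinj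
    have hB := lemB hL hV hφ h0 d.natDegree (2 + (d.natDegree : ℤ) - (a.natDegree : ℤ)) (by omega)
      (by omega)
    rw [← hbij.sum_comp (fun s : Fin d.natDegree → F =>
      val φ (2 + (d.natDegree : ℤ) - (a.natDegree : ℤ)) (ds 1 s))] at hB
    rw [← hB]
    refine Finset.sum_congr rfl fun c _ => ?_
    have h1 := dg_spec hL 1 d.natDegree _ (hx c)
    have h2 : 2 + (d.natDegree : ℤ) - (a.natDegree : ℤ) ≤ 1 + (d.natDegree : ℤ) := by omega
    have h3 := inO_mono h1 h2
    exact val_congr hV hφ h3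

open Classical in
theorem lemC {R : Type} [AddCommGroup R] (hL : LAUStmt) (hV : VALStmt) {φ : GLK F → R}
    (hφ : IsHarm φ) {m : F[X]} (hm : m.Monic) (hm3 : m.natDegree ≤ 3) :
    ∑ c : Fin m.natDegree → F, val φ (2 + (m.natDegree : ℤ))
      ((unif F + emb F (pol c)) / emb F m) =
    ∑ s ∈ Finset.univ.filter (fun s : Fin 4 → F =>
      HahnSeries.coeff (emb F m * ds 1 s) 1 = 1), val φ 5 (ds 1 s) := by
  have hu : InO 1 (unif F) := by
    have := inO_pow (F := F) hL 1
    rwa [zpow_one] at this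
  have hpi : HahnSeries.coeff (unif F) 1 = 1 := by
    have := coeff_pow (F := F) hL 1 1
    rwa [zpow_one, if_pos rfl] at this
  set de := m.natDegree with hde
  have hx : ∀ c : Fin de → F, InO 1 ((unif F + emb F (pol c)) / emb F m) := by
    intro c
    rw [add_div]
    refine inO_add ?_ ?_
    · rw [div_eq_mul_inv]
      exact inO_mono (inO_mul hL hu (inO_emb_inv hL hm)) (by omega)
    · rw [div_eq_mul_inv]
      refine inO_mono (inO_mul hL (inO_emb hL (pol_deg c)) (inO_emb_inv hL hm)) ?_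
      omega
  have hexp : ∀ c : Fin de → F, val φ (2 + (de : ℤ)) ((unif F + emb F (pol c)) / emb F m)
      = ∑ t : Fin (3 - de) → F,
        val φ 5 ((unif F + emb F (pol c)) / emb F m + ds (2 + (de : ℤ)) t) := by
    intro c
    have := (hV F R φ hφ).2.2.2.1 1 (2 + (de : ℤ)) (3 - de)
      ((unif F + emb F (pol c)) / emb F m)
    simp only [one_mul] at this
    rw [show (2 + (de : ℤ) + ((3 - de : ℕ) : ℤ)) = 5 by omega] at this
    exact this.symm
  rw [Finset.sum_congr rfl fun c _ => hexp c, ← Fintype.sum_prod_type']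
  have hX : ∀ p : (Fin de → F) × (Fin (3 - de) → F),
      InO 1 ((unif F + emb F (pol p.1)) / emb F m + ds (2 + (de : ℤ)) p.2) := fun p =>
    inO_add (hx p.1) (inO_mono (inO_ds hL _ _) (by omega))
  have hmul : ∀ p : (Fin de → F) × (Fin (3 - de) → F),
      emb F m * ((unif F + emb F (pol p.1)) / emb F m + ds (2 + (de : ℤ)) p.2)
        = (unif F + emb F (pol p.1)) + emb F m * ds (2 + (de : ℤ)) p.2 := by
    intro p
    rw [mul_add, mul_div_cancel₀ _ (emb_ne hL hm)]
  have hy : ∀ t : Fin (3 - de) → F, InO 2 (emb F m * ds (2 + (de : ℤ)) t) := fun t =>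
    inO_mono (inO_mul hL (inO_emb_monic hL hm) (inO_ds hL _ _)) (by omega)
  refine Finset.sum_bij (fun p _ => dg 1 4
    ((unif F + emb F (pol p.1)) / emb F m + ds (2 + (de : ℤ)) p.2)) ?_ ?_ ?_ ?_
  · intro p _
    rw [Finset.mem_filter]
    refine ⟨Finset.mem_univ _, ?_⟩
    have h1 := dg_spec hL 1 4 _ (hX p)
    have h2 := inO_mul hL (inO_emb_monic hL hm) h1
    have h3 := inO_mono h2 (show (2 : ℤ) ≤ _ by omega) 1 (by omega)
    rw [mul_sub, HahnSeries.coeff_sub, sub_eq_zero] at h3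
    rw [← h3, hmul, HahnSeries.coeff_add, HahnSeries.coeff_add, hpi, (hL F).2.1 _ 1 one_pos,
      hy p.2 1 (by omega)]
    ring
  · intro p _ p' _ h
    have h1 := dg_inO (hX p) (hX p') h
    have h2 := inO_mul hL (inO_emb_monic hL hm) h1
    rw [mul_sub, hmul, hmul] at h2
    have e : ∀ A B C A' C' : Kinf F, A + B + C - (A + A' + C') = (B - A') + (C - C') := by
      intros; ring
    rw [e] at h2
    have h3 := inO_sub (inO_mono h2 (show (2 : ℤ) ≤ _ by omega)) (inO_sub (hy p.2) (hy p'.2))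
    rw [add_sub_cancel_right] at h3
    have h4 : p.1 = p'.1 := emb_pol_inj hL (inO_mono h3 (by omega))
    have h5 : p.2 = p'.2 := by
      rw [h4, add_sub_add_left_eq_sub] at h1
      have h6 := dg_eq (k := 2 + (de : ℤ)) (N := 3 - de) (inO_mono h1 (by omega))
      rwa [dg_ds hL, dg_ds hL] at h6
    exact Prod.ext h4 h5
  · intro s hs
    rw [Finset.mem_filter] at hs
    have hs := hs.2
    set v := emb F m * ds 1 s with hv
    obtain ⟨b, hb⟩ := (hL F).2.2.2.2.2.2.2.2.2.2.1 v
    have hvO : InO (1 - (de : ℤ)) v :=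
      inO_mono (inO_mul hL (inO_emb_monic hL hm) (inO_ds hL _ _)) (by omega)
    have hbd : b.degree < (de : ℕ) := by
      rw [degree_lt_iff_coeff_zero]
      intro i hi
      rw [← (hL F).1 b i]
      have h1 := hb (-(i : ℤ)) (by omega)
      rw [HahnSeries.coeff_sub, hvO _ (by omega), zero_sub, neg_eq_zero] at h1
      exact h1
    have hyO : InO 2 (v - emb F b - unif F) := by
      intro i hi
      by_cases h1 : i < 1
      · rw [HahnSeries.coeff_sub, hb i h1, hu i h1, sub_zero]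
      · have : i = 1 := by omega
        subst this
        rw [HahnSeries.coeff_sub, HahnSeries.coeff_sub, hs, (hL F).2.1 b 1 one_pos, hpi]
        ring
    set y := (v - emb F b - unif F) / emb F m with hydef
    have hyO' : InO (2 + (de : ℤ)) y := by
      rw [hydef, div_eq_mul_inv]
      exact inO_mul hL hyO (inO_emb_inv hL hm)
    refine ⟨(fun j => b.coeff (j : ℕ), dg (2 + (de : ℤ)) (3 - de) y), Finset.mem_univ _, ?_⟩
    have h1 : ds 1 s = (unif F + emb F b) / emb F m + y := by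
      rw [hydef, ← add_div]
      rw [show unif F + emb F b + (v - emb F b - unif F) = v by ring, hv,
        mul_div_cancel_left₀ _ (emb_ne hL hm)]
    show dg 1 4 ((unif F + emb F (pol fun j : Fin de => b.coeff (j : ℕ))) / emb F m +
      ds (2 + (de : ℤ)) (dg (2 + (de : ℤ)) (3 - de) y)) = s
    rw [pol_surj hbd, ← dg_ds hL 1 s]
    refine dg_eq ?_
    rw [h1, add_sub_add_left_eq_sub]
    have h2 := inO_neg (dg_spec hL (2 + (de : ℤ)) (3 - de) y hyO')
    rw [neg_sub] at h2
    exact inO_mono h2 (by omega)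
  · intro p _
    exact val_congr hV hφ (inO_mono (dg_spec hL 1 4 _ (hX p)) (by omega))

/-- the terms of the Hecke sum -/
theorem term_eq {R : Type} [AddCommGroup R] (hL : LAUStmt) (hM : MTXStmt) (hV : VALStmt)
    {φ : GLK F → R} (hφ : IsHarm φ) {a b d : F[X]} (ha : a.Monic) (hd : d.Monic) :
    φ (hmat (a, b, d) * mat ((unif F) ^ (2 : ℤ)) (unif F) 0 1) =
      val φ (2 + (d.natDegree : ℤ) - (a.natDegree : ℤ))
        ((emb F a * unif F + emb F b) / emb F d) := by
  have hπ : (unif F) ≠ 0 := (hL F).2.2.2.2.2.1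
  obtain ⟨ua, hua, ha0, ha1⟩ := emb_form hL ha
  obtain ⟨ud, hud, hd0, hd1⟩ := emb_form hL hd
  obtain ⟨hdi, hdi1⟩ := (hL F).2.2.2.2.2.2.2.2.2.1 ud hd0 (by rw [hd1]; exact one_ne_zero)
  have e1 : hmat (a, b, d) * mat ((unif F) ^ (2 : ℤ)) (unif F) 0 1
      = mat (emb F a * (unif F) ^ (2 : ℤ)) (emb F a * unif F + emb F b) 0 (emb F d) := by
    unfold hmat
    rw [(hM F).2.2.1 _ _ _ _ _ _ _ _ (by
      rw [mul_zero, sub_zero]
      exact mul_ne_zero (emb_ne hL ha) (emb_ne hL hd)) (by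
      rw [mul_zero, sub_zero, mul_one]
      exact zpow_ne_zero _ hπ)]
    simp only [mul_zero, add_zero, mul_one, zero_mul, zero_add]
  rw [e1]
  have h2 := (hV F R φ hφ).2.1 1 (emb F a * (unif F) ^ (2 : ℤ)) (emb F a * unif F + emb F b)
    (emb F d) (2 + (d.natDegree : ℤ) - (a.natDegree : ℤ)) (ua * ud⁻¹) (emb_ne hL hd) ?_ ?_ ?_
  · rw [one_mul, one_mul] at h2
    exact h2
  · have hud0 : ud ≠ 0 := by
      intro h
      rw [h, HahnSeries.coeff_zero] at hd1
      exact zero_ne_one hd1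
    rw [hua, hud, show (2 + (d.natDegree : ℤ) - (a.natDegree : ℤ))
      = (-(a.natDegree : ℤ)) + 2 - (-(d.natDegree : ℤ)) by ring,
      zpow_sub₀ hπ, zpow_add₀ hπ]
    field_simp
  · have := inO_mul hL ha0 hdi
    rwa [add_zero] at this
  · have := ((hL F).2.2.2.2.2.2.2.1 0 0 ua ud⁻¹ ha0 hdi).2
    rw [add_zero] at this
    rw [this, ha1, hdi1, hd1, inv_one, mul_one]
    exact one_ne_zero

theorem cmf (hVAL : VALStmt) (hLAU : LAUStmt) (hMTX : MTXStmt) (hHPM : HPMStmt) : CMFStmt := by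
  intro F _ _ _ R _ n m hn hm hm3 φ hφ hI h0
  classical
  have hfin : (HIdx n m).Finite := (hHPM F n m hn hm).1
  have e1 : val (hecke n m φ) 2 (unif F) = ∑ x ∈ hfin.toFinset,
      φ (hmat x * mat ((unif F) ^ (2 : ℤ)) (unif F) 0 1) := by
    show (∑ᶠ x ∈ HIdx n m, φ (hmat x * mat ((unif F) ^ (2 : ℤ)) (unif F) 0 1)) = _
    exact finsum_mem_eq_finite_toFinset_sum _ hfin
  have hmem : ∀ x, x ∈ hfin.toFinset ↔ (x.1.Monic ∧ x.2.2.Monic ∧ x.1 * x.2.2 = m ∧
      IsCoprime x.1 n ∧ x.2.1.degree < x.2.2.degree) := fun x => by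
    rw [Set.Finite.mem_toFinset]
    rfl
  have hfib : ∀ a d : F[X], a.Monic → d.Monic → a * d = m → IsCoprime a n →
      ∑ x ∈ hfin.toFinset.filter (fun x => (x.1, x.2.2) = (a, d)),
        φ (hmat x * mat ((unif F) ^ (2 : ℤ)) (unif F) 0 1) =
      ∑ c : Fin d.natDegree → F, val φ (2 + (d.natDegree : ℤ) - (a.natDegree : ℤ))
        ((emb F a * unif F + emb F (pol c)) / emb F d) := by
    intro a d ha hd had hcop
    symm
    refine Finset.sum_bij (fun c _ => (a, pol c, d)) ?_ ?_ ?_ ?_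
    · intro c _
      rw [Finset.mem_filter, hmem]
      refine ⟨⟨ha, hd, had, hcop, ?_⟩, rfl⟩
      show (pol c).degree < d.degree
      rw [degree_eq_natDegree hd.ne_zero]
      exact pol_deg c
    · intro c _ c' _ h
      exact pol_inj (Prod.ext_iff.mp (Prod.ext_iff.mp h).2).1
    · intro x hx
      rw [Finset.mem_filter, hmem] at hx
      obtain ⟨⟨-, -, -, -, h5⟩, h6⟩ := hx
      have h7 : x.1 = a := (Prod.ext_iff.mp h6).1
      have h8 : x.2.2 = d := (Prod.ext_iff.mp h6).2
      rw [h8, degree_eq_natDegree hd.ne_zero] at h5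
      refine ⟨fun j => x.2.1.coeff (j : ℕ), Finset.mem_univ _, ?_⟩
      rw [pol_surj h5, ← h7, ← h8]
    · intro c _
      exact (term_eq hLAU hMTX hVAL hφ ha hd).symm
  rw [e1, ← Finset.sum_fiberwise_of_maps_to (t := hfin.toFinset.image fun x => (x.1, x.2.2))
    (g := fun x => (x.1, x.2.2)) (fun x hx => Finset.mem_image_of_mem _ hx)]
  rw [Finset.sum_eq_single ((1 : F[X]), m)]
  · rw [hfib 1 m monic_one hm (one_mul m) isCoprime_one_left]
    have e2 := lemC hLAU hVAL hφ hm hm3
    rw [natDegree_one]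
    simp only [Nat.cast_zero, sub_zero, map_one, one_mul]
    rw [e2, Finset.sum_filter]
    refine Finset.sum_congr rfl fun s _ => ?_
    have e3 : (∑ j : Fin 4, cst F (s j) * (unif F) ^ (1 + (j : ℕ))) = ds 1 s := by
      unfold ds
      refine Finset.sum_congr rfl fun j _ => ?_
      congr 1
    rw [e3]
    split_ifs <;> rfl
  · intro y hy hne
    obtain ⟨x, hx, rfl⟩ := Finset.mem_image.mp hy
    rw [hmem] at hx
    obtain ⟨h1, h2, h3, h4, h5⟩ := hx
    rw [hfib x.1 x.2.2 h1 h2 h3 h4]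
    refine lemA hLAU hVAL hφ hI h0 h1 h2 ?_
    by_contra hc
    have h6 : x.1.natDegree = 0 := by omega
    have h6 : x.1 = 1 := eq_one_of_monic_natDegree_zero h1 h6
    apply hne
    rw [h6, one_mul] at h3
    rw [h6, h3]
  · intro h
    exfalso
    apply h
    rw [Finset.mem_image]
    refine ⟨(1, 0, m), ?_, rfl⟩
    rw [hmem]
    refine ⟨monic_one, hm, one_mul m, isCoprime_one_left, ?_⟩
    show (0 : F[X]).degree < m.degree
    rw [degree_zero, degree_eq_natDegree hm.ne_zero]
    exact WithBot.bot_lt_coe _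

end Pool.Agent.HK.H46C
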