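import Pool.Agent.Helper8_HK.Stmt2

/-! Squad HK, module TAY: the Taylor operators (helper46). -/

set_option autoImplicit false
set_option linter.unusedSectionVars false

namespace Pool.Agent.HK.H46

open MvPolynomial

variable {r : ℕ} [NeZero r] {k : Type} [Field k]

theorem tay_X (j : Ix r) :
    tay (k := k) (X j) = C (X j) + X j.2 := by
  unfold tay
  rw [aeval_X]

theorem tay_C (a : k) : tay (r := r) (C a) = C (C a) := by
  unfold tay
  rw [aeval_C]
  rfl

theorem DD_add (κ : ZMod r →₀ ℕ) (P Q : MvPolynomial (Ix r) k) :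
    DD κ (P + Q) = DD κ P + DD κ Q := by
  unfold DD
  rw [map_add, coeff_add]

theorem DD_C_mul (κ : ZMod r →₀ ℕ) (c : k) (P : MvPolynomial (Ix r) k) :
    DD κ (C c * P) = C c * DD κ P := by
  unfold DD
  rw [map_mul, tay_C, coeff_C_mul]

theorem DD_sum {ι : Type} (κ : ZMod r →₀ ℕ) (s : Finset ι) (f : ι → MvPolynomial (Ix r) k) :
    DD κ (∑ i ∈ s, f i) = ∑ i ∈ s, DD κ (f i) := by
  unfold DD
  rw [map_sum, coeff_sum]

theorem DD_C (κ : ZMod r →₀ ℕ) (a : k) :
    DD κ (C a : MvPolynomial (Ix r) k) = if κ = 0 then C a else 0 := by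
  classical
  unfold DD
  rw [tay_C, coeff_C]
  by_cases h : κ = 0
  · simp [h]
  · rw [if_neg h, if_neg (fun h' => h h'.symm)]

/-- product rule -/
theorem DD_mul_X (κ : ZMod r →₀ ℕ) (P : MvPolynomial (Ix r) k) (j : Ix r) :
    DD κ (P * X j) = DD κ P * X j +
      if κ j.2 = 0 then 0 else DD (κ - Finsupp.single j.2 1) P := by
  classical
  unfold DD
  rw [map_mul, tay_X, mul_add, coeff_add]
  congr 1
  · rw [mul_comm, coeff_C_mul, mul_comm]
  · rw [coeff_mul_X']
    by_cases h : κ j.2 = 0
    · rw [if_pos h, if_neg]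
      rw [Finsupp.mem_support_iff]
      exact fun h' => h' h
    · rw [if_neg h, if_pos]
      rw [Finsupp.mem_support_iff]
      exact h

theorem DD_zero (P : MvPolynomial (Ix r) k) : DD 0 P = P := by
  induction P using MvPolynomial.induction_on with
  | C a => rw [DD_C, if_pos rfl]
  | add p q hp hq => rw [DD_add, hp, hq]
  | mul_X p j hp =>
    rw [DD_mul_X, hp, if_pos (show (0 : ZMod r →₀ ℕ) j.2 = 0 from rfl), add_zero]

/-- the binomial weight -/
noncomputable def bw (κ κ' : ZMod r →₀ ℕ) : ℕ := ∏ s, (κ s + κ' s).choose (κ s)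

theorem bw_split (κ κ' : ZMod r →₀ ℕ) (i : ZMod r) :
    bw κ κ' = (κ i + κ' i).choose (κ i) *
      ∏ s ∈ Finset.univ.erase i, (κ s + κ' s).choose (κ s) := by
  classical
  unfold bw
  rw [Finset.mul_prod_erase Finset.univ (fun s => (κ s + κ' s).choose (κ s)) (Finset.mem_univ i)]

theorem sub_single_same (κ : ZMod r →₀ ℕ) (i : ZMod r) :
    (κ - Finsupp.single i 1 : ZMod r →₀ ℕ) i = κ i - 1 := by
  rw [Finsupp.coe_tsub, Pi.sub_apply, Finsupp.single_eq_same]

theorem sub_single_ne (κ : ZMod r →₀ ℕ) {i s : ZMod r} (h : s ≠ i) :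
    (κ - Finsupp.single i 1 : ZMod r →₀ ℕ) s = κ s := by
  rw [Finsupp.coe_tsub, Pi.sub_apply, Finsupp.single_eq_of_ne h, Nat.sub_zero]

theorem pascal (κ κ' : ZMod r →₀ ℕ) (i : ZMod r) (h : κ i + κ' i ≠ 0) :
    bw κ κ' = (if κ i = 0 then 0 else bw (κ - Finsupp.single i 1) κ') +
      (if κ' i = 0 then 0 else bw κ (κ' - Finsupp.single i 1)) := by
  classical
  have e1 : ∏ s ∈ Finset.univ.erase i, ((κ - Finsupp.single i 1 : ZMod r →₀ ℕ) s + κ' s).choose
        ((κ - Finsupp.single i 1 : ZMod r →₀ ℕ) s)
      = ∏ s ∈ Finset.univ.erase i, (κ s + κ' s).choose (κ s) := by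
    refine Finset.prod_congr rfl fun s hs => ?_
    rw [sub_single_ne κ (Finset.ne_of_mem_erase hs)]
  have e2 : ∏ s ∈ Finset.univ.erase i, (κ s + (κ' - Finsupp.single i 1 : ZMod r →₀ ℕ) s).choose (κ s)
      = ∏ s ∈ Finset.univ.erase i, (κ s + κ' s).choose (κ s) := by
    refine Finset.prod_congr rfl fun s hs => ?_
    rw [sub_single_ne κ' (Finset.ne_of_mem_erase hs)]
  rw [bw_split κ κ' i, bw_split (κ - Finsupp.single i 1) κ' i,
    bw_split κ (κ' - Finsupp.single i 1) i, e1, e2, sub_single_same, sub_single_same]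
  generalize (∏ s ∈ Finset.univ.erase i, (κ s + κ' s).choose (κ s)) = w
  generalize κ i = a at h ⊢
  generalize κ' i = b at h ⊢
  rcases a with _ | a
  · rcases b with _ | b
    · omega
    · simp
  · rcases b with _ | b
    · simp
    · rw [if_neg (by omega), if_neg (by omega), ← add_mul]
      congr 1
      have e3 : a + 1 + (b + 1) = (a + (b + 1)) + 1 := by omega
      rw [e3, Nat.choose_succ_succ]
      congr 1
      congr 1
      omega

theorem DD_DD (P : MvPolynomial (Ix r) k) : ∀ κ κ' : ZMod r →₀ ℕ,
    DD κ (DD κ' P) = C ((bw κ κ' : ℕ) : k) * DD (κ + κ') P := by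
  classical
  induction P using MvPolynomial.induction_on with
  | C a =>
    intro κ κ'
    rw [DD_C κ', DD_C (κ + κ')]
    by_cases h' : κ' = 0
    · subst h'
      rw [if_pos rfl, DD_C, add_zero]
      by_cases h : κ = 0
      · subst h
        rw [if_pos rfl]
        simp [bw]
      · rw [if_neg h, mul_zero]
    · rw [if_neg h']
      have h0 : DD κ (0 : MvPolynomial (Ix r) k) = 0 := by
        unfold DD
        rw [map_zero, coeff_zero]
      rw [h0]
      rw [if_neg, mul_zero]
      intro hc
      apply h'
      ext s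
      have := DFunLike.congr_fun hc s
      simp only [Finsupp.coe_add, Pi.add_apply, Finsupp.coe_zero, Pi.zero_apply] at this ⊢
      omega
  | add p q hp hq =>
    intro κ κ'
    rw [DD_add, DD_add, DD_add, hp, hq, mul_add]
  | mul_X p j hp =>
    intro κ κ'
    rw [DD_mul_X κ', DD_add, DD_mul_X κ, hp κ κ', DD_mul_X (κ + κ')]
    have e0 : (κ + κ') j.2 = κ j.2 + κ' j.2 := rfl
    rw [e0]
    have eA : (if κ j.2 = 0 then (0 : MvPolynomial (Ix r) k)
        else DD (κ - Finsupp.single j.2 1) (DD κ' p))
        = C (((if κ j.2 = 0 then 0 else bw (κ - Finsupp.single j.2 1) κ' : ℕ) : ℕ) : k) *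
          DD (κ + κ' - Finsupp.single j.2 1) p := by
      by_cases h : κ j.2 = 0
      · rw [if_pos h, if_pos h]
        simp
      · rw [if_neg h, if_neg h, hp]
        congr 2
        ext s
        simp only [Finsupp.coe_add, Finsupp.coe_tsub, Pi.add_apply, Pi.sub_apply]
        by_cases hs : s = j.2
        · subst hs
          rw [Finsupp.single_eq_same]
          omega
        · rw [Finsupp.single_eq_of_ne hs]
          omega
    have eB : DD κ (if κ' j.2 = 0 then (0 : MvPolynomial (Ix r) k)
        else DD (κ' - Finsupp.single j.2 1) p)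
        = C (((if κ' j.2 = 0 then 0 else bw κ (κ' - Finsupp.single j.2 1) : ℕ) : ℕ) : k) *
          DD (κ + κ' - Finsupp.single j.2 1) p := by
      by_cases h : κ' j.2 = 0
      · rw [if_pos h, if_pos h]
        unfold DD
        rw [map_zero, coeff_zero]
        simp
      · rw [if_neg h, if_neg h, hp]
        congr 2
        ext s
        simp only [Finsupp.coe_add, Finsupp.coe_tsub, Pi.add_apply, Pi.sub_apply]
        by_cases hs : s = j.2
        · subst hs
          rw [Finsupp.single_eq_same]
          omega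
        · rw [Finsupp.single_eq_of_ne hs]
          omega
    rw [eA, eB]
    by_cases h : κ j.2 + κ' j.2 = 0
    · have h1 : κ j.2 = 0 := by omega
      have h2 : κ' j.2 = 0 := by omega
      rw [if_pos h, if_pos h1, if_pos h2]
      simp only [Nat.cast_zero, C_0, zero_mul, add_zero]
      ring
    · rw [if_neg h, pascal κ κ' j.2 h, Nat.cast_add, C_add]
      have e5 := pascal κ κ' j.2 h
      ring

/-- support of the Taylor coefficients of monomials -/
theorem supp_mono (α : Ix r →₀ ℕ) (c : k) : ∀ (κ : ZMod r →₀ ℕ) (β : Ix r →₀ ℕ),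
    coeff β (DD κ (monomial α c)) ≠ 0 →
      (∀ j, β j ≤ α j) ∧ ∀ s, ld α s = ld β s + κ s := by
  classical
  have key : ∀ (κ : ZMod r →₀ ℕ) (β : Ix r →₀ ℕ),
      coeff β (DD κ (monomial α c)) ≠ 0 →
        ∃ α' ∈ (monomial α c : MvPolynomial (Ix r) k).support,
          (∀ j, β j ≤ α' j) ∧ ∀ s, ld α' s = ld β s + κ s := by
    refine MvPolynomial.induction_on_monomial (motive := fun p => ∀ (κ : ZMod r →₀ ℕ)
      (β : Ix r →₀ ℕ), coeff β (DD κ p) ≠ 0 → ∃ α' ∈ p.support,
          (∀ j, β j ≤ α' j) ∧ ∀ s, ld α' s = ld β s + κ s) ?_ ?_ α c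
    · intro a κ β h
      rw [DD_C] at h
      by_cases hκ : κ = 0
      · subst hκ
        rw [if_pos rfl, coeff_C] at h
        have hβ : 0 = β := by
          by_contra hc
          rw [if_neg hc] at h
          exact h rfl
        subst hβ
        rw [if_pos rfl] at h
        refine ⟨0, ?_, fun j => le_refl _, fun s => rfl⟩
        rw [mem_support_iff, coeff_C, if_pos rfl]
        exact h
      · rw [if_neg hκ, coeff_zero] at h
        exact absurd rfl h
    · intro p n hp κ β h
      rw [DD_mul_X, coeff_add] at h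
      have hcase : coeff β (DD κ p * X n) ≠ 0 ∨
          coeff β (if κ n.2 = 0 then 0 else DD (κ - Finsupp.single n.2 1) p) ≠ 0 := by
        by_contra hc
        push Not at hc
        rw [hc.1, hc.2, add_zero] at h
        exact h rfl
      have hldn : ∀ (γ : Ix r →₀ ℕ) (s : ZMod r), ld (γ + Finsupp.single n 1) s =
          ld γ s + if s = n.2 then 1 else 0 := by
        intro γ s
        unfold ld
        simp only [Finsupp.coe_add, Pi.add_apply]
        rw [Finset.sum_add_distrib]
        congr 1
        by_cases hs : s = n.2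
        · subst hs
          rw [if_pos rfl]
          rw [Finset.sum_eq_single n.1]
          · rw [show ((n.1, n.2) : Ix r) = n from rfl, Finsupp.single_eq_same]
          · intro i _ hi
            rw [Finsupp.single_eq_of_ne]
            intro hc
            exact hi (by rw [← hc])
          · intro hc
            exact absurd (Finset.mem_univ _) hc
        · rw [if_neg hs]
          refine Finset.sum_eq_zero fun i _ => ?_
          rw [Finsupp.single_eq_of_ne]
          intro hc
          exact hs (by rw [← hc])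
      rcases hcase with h1 | h1
      · rw [coeff_mul_X'] at h1
        by_cases hn : n ∈ β.support
        · rw [if_pos hn] at h1
          obtain ⟨α', hα', h2, h3⟩ := hp κ _ h1
          refine ⟨α' + Finsupp.single n 1, ?_, ?_, ?_⟩
          · rw [mem_support_iff, coeff_mul_X]
            exact mem_support_iff.mp hα'
          · intro j
            have := h2 j
            simp only [Finsupp.coe_add, Finsupp.coe_tsub, Pi.add_apply, Pi.sub_apply] at this ⊢
            omega
          · intro s
            have hβ : β = (β - Finsupp.single n 1) + Finsupp.single n 1 := by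
              ext j
              simp only [Finsupp.coe_add, Finsupp.coe_tsub, Pi.add_apply, Pi.sub_apply]
              by_cases hj : j = n
              · subst hj
                rw [Finsupp.single_eq_same]
                have := Finsupp.mem_support_iff.mp hn
                omega
              · rw [Finsupp.single_eq_of_ne hj]
                omega
            have e1 := hldn (β - Finsupp.single n 1) s
            rw [← hβ] at e1
            rw [hldn, h3 s, e1]
            omega
        · rw [if_neg hn] at h1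
          exact absurd rfl h1
      · by_cases hκ : κ n.2 = 0
        · rw [if_pos hκ, coeff_zero] at h1
          exact absurd rfl h1
        · rw [if_neg hκ] at h1
          obtain ⟨α', hα', h2, h3⟩ := hp _ _ h1
          refine ⟨α' + Finsupp.single n 1, ?_, ?_, ?_⟩
          · rw [mem_support_iff, coeff_mul_X]
            exact mem_support_iff.mp hα'
          · intro j
            have := h2 j
            simp only [Finsupp.coe_add, Pi.add_apply] at this ⊢
            omega
          · intro s
            rw [hldn, h3 s]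
            by_cases hs : s = n.2
            · subst hs
              rw [if_pos rfl, sub_single_same]
              omega
            · rw [if_neg hs, sub_single_ne κ hs]
              omega
  intro κ β h
  obtain ⟨α', hα', h1, h2⟩ := key κ β h
  have : α' = α := by
    have := support_monomial_subset hα'
    exact Finset.mem_singleton.mp this
  subst this
  exact ⟨h1, h2⟩

theorem supp_DD (κ : ZMod r →₀ ℕ) (P : MvPolynomial (Ix r) k) (β : Ix r →₀ ℕ)
    (hβ : β ∈ (DD κ P).support) :
    ∃ α ∈ P.support, (∀ j, β j ≤ α j) ∧ ∀ s, ld α s = ld β s + κ s := by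
  rw [mem_support_iff] at hβ
  have e : DD κ P = ∑ α ∈ P.support, DD κ (monomial α (coeff α P)) := by
    rw [← DD_sum]
    congr 1
    exact P.as_sum
  rw [e, coeff_sum] at hβ
  obtain ⟨α, hα, h⟩ := Finset.exists_ne_zero_of_sum_ne_zero hβ
  exact ⟨α, hα, supp_mono α _ κ β h⟩

theorem ev_eq (c : ZMod r → k) (P : MvPolynomial (Ix r) k) :
    (aeval (fun j : Ix r => X j + C (c j.2)) P : MvPolynomial (Ix r) k) =
      ∑ κ ∈ (tay P).support, C (∏ s, c s ^ κ s) * DD κ P := by
  have h1 : (aeval (fun j : Ix r => X j + C (c j.2)) P : MvPolynomial (Ix r) k)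
      = eval (fun s => C (c s)) (tay P) := by
    induction P using MvPolynomial.induction_on with
    | C a =>
      rw [tay_C, eval_C, aeval_C]
      rfl
    | add p q hp hq => rw [map_add, map_add, map_add, hp, hq]
    | mul_X p j hp =>
      rw [map_mul, map_mul, map_mul, hp, aeval_X, tay_X, map_add, eval_C, eval_X]
  rw [h1, eval_eq']
  refine Finset.sum_congr rfl fun κ _ => ?_
  rw [mul_comm]
  congr 1
  rw [map_prod]
  refine Finset.prod_congr rfl fun s _ => ?_
  rw [C_pow]

theorem redu_DD (p : ℕ) (κ : ZMod r →₀ ℕ) (P : MvPolynomial (Ix r) k) (hP : Redu p P) :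
    Redu p (DD κ P) := by
  intro β hβ j
  obtain ⟨α, hα, h1, -⟩ := supp_DD κ P β hβ
  exact lt_of_le_of_lt (h1 j) (hP α hα j)

theorem tay_thm : TAYStmt := by
  intro r _ k _
  refine ⟨ev_eq, DD_add, DD_C_mul, DD_zero, ?_, redu_DD, ?_, ?_⟩
  · intro κ κ' P
    rw [DD_DD]
    congr 2
    unfold bw
    rw [Nat.cast_prod]
  · intro p c P hP
    rw [ev_eq]
    intro β hβ j
    rw [mem_support_iff, coeff_sum] at hβ
    obtain ⟨κ, -, h⟩ := Finset.exists_ne_zero_of_sum_ne_zero hβ
    rw [coeff_C_mul] at h
    have h2 : β ∈ (DD κ P).support := by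
      rw [mem_support_iff]
      intro hc
      rw [hc, mul_zero] at h
      exact h rfl
    exact redu_DD p κ P hP β h2 j
  · intro κ P β hβ
    obtain ⟨α, hα, -, h2⟩ := supp_DD κ P β hβ
    exact ⟨α, hα, h2⟩

end Pool.Agent.HK.H46
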